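import Mathlib

namespace Pool.Agent.H.MP_db33a0_lc

/-- formulas in the language with meet, join, fusion, implication and the constants e, f -/
inductive Fm
  | var (n : ℕ) | e | f | and (φ ψ : Fm) | or (φ ψ : Fm) | mul (φ ψ : Fm) | imp (φ ψ : Fm)

def vars : Fm → Set ℕ
  | .var n => {n}
  | .e => ∅
  | .f => ∅
  | .and φ ψ => vars φ ∪ vars ψ
  | .or φ ψ => vars φ ∪ vars ψ
  | .mul φ ψ => vars φ ∪ vars ψ
  | .imp φ ψ => vars φ ∪ vars ψ

def sub (σ : ℕ → Fm) : Fm → Fm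
  | .var n => σ n
  | .e => .e
  | .f => .f
  | .and φ ψ => .and (sub σ φ) (sub σ ψ)
  | .or φ ψ => .or (sub σ φ) (sub σ ψ)
  | .mul φ ψ => .mul (sub σ φ) (sub σ ψ)
  | .imp φ ψ => .imp (sub σ φ) (sub σ ψ)

/-- commutative residuated lattices whose unit is the top element, with a bottom element -/
class FLew (A : Type) extends Lattice A, CommMonoid A where
  zero : A
  imp : A → A → A
  le_one : ∀ x : A, x ≤ 1
  zero_le : ∀ x : A, zero ≤ x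
  res : ∀ x y z : A, x * y ≤ z ↔ x ≤ imp y z

def ev {A : Type} [FLew A] (v : ℕ → A) : Fm → A
  | .var n => v n
  | .e => 1
  | .f => FLew.zero
  | .and φ ψ => ev v φ ⊓ ev v ψ
  | .or φ ψ => ev v φ ⊔ ev v ψ
  | .mul φ ψ => ev v φ * ev v ψ
  | .imp φ ψ => FLew.imp (ev v φ) (ev v ψ)

def SubClosed (L : Set Fm) : Prop := ∀ φ ∈ L, ∀ σ, sub σ φ ∈ L

/-- consequence relation of the extension of FLew by the axioms L -/
def ConsF (L Γ : Set Fm) (φ : Fm) : Prop :=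
  ∀ (A : Type) [FLew A] (v : ℕ → A), (∀ ψ ∈ L ∪ Γ, ev v ψ = 1) → ev v φ = 1

/-- consequence relation of the extension of MTL by the axioms L -/
def ConsM (L Γ : Set Fm) (φ : Fm) : Prop :=
  ∀ (A : Type) [FLew A], (∀ x y : A, FLew.imp x y ⊔ FLew.imp y x = 1) →
    ∀ v : ℕ → A, (∀ ψ ∈ L ∪ Γ, ev v ψ = 1) → ev v φ = 1

/-- deductive interpolation property -/
def DIP (C : Set Fm → Fm → Prop) : Prop :=
  ∀ Γ φ, C Γ φ → ∃ Δ : Set Fm, (∀ δ ∈ Δ, vars δ ⊆ (⋃ γ ∈ Γ, vars γ) ∩ vars φ) ∧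
    (∀ δ ∈ Δ, C Γ δ) ∧ C Δ φ

end Pool.Agent.H.MP_db33a0_lc
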