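import Mathlib
import Pool.Agent.H.MP_db33a0_lc.Defs

namespace Pool.Agent.H.MP_db33a0_lc

open Filter

theorem imp_eq_one {A : Type} [FLew A] (x y : A) : FLew.imp x y = 1 ↔ x ≤ y := by
  have := FLew.res 1 x y
  rw [one_mul] at this
  exact ⟨fun h => this.2 h.ge, fun h => le_antisymm (FLew.le_one _) (this.1 h)⟩

theorem ev_sub {A : Type} [FLew A] (v : ℕ → A) (σ : ℕ → Fm) (φ : Fm) :
    ev v (sub σ φ) = ev (fun n => ev v (σ n)) φ := by
  induction φ <;> simp_all [ev, sub]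

theorem ev_congr {A : Type} [FLew A] (v v' : ℕ → A) (φ : Fm) (h : ∀ n ∈ vars φ, v n = v' n) :
    ev v φ = ev v' φ := by
  induction φ with
  | var n => exact h n rfl
  | e => rfl
  | f => rfl
  | and φ ψ i1 i2 => simp only [ev, i1 (fun n hn => h n (.inl hn)), i2 (fun n hn => h n (.inr hn))]
  | or φ ψ i1 i2 => simp only [ev, i1 (fun n hn => h n (.inl hn)), i2 (fun n hn => h n (.inr hn))]
  | mul φ ψ i1 i2 => simp only [ev, i1 (fun n hn => h n (.inl hn)), i2 (fun n hn => h n (.inr hn))]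
  | imp φ ψ i1 i2 => simp only [ev, i1 (fun n hn => h n (.inl hn)), i2 (fun n hn => h n (.inr hn))]

def p4 (φ : Fm) : Fm := .mul φ (.mul φ (.mul φ φ))

def conj : List Fm → Fm
  | [] => .e
  | φ :: l => .and φ (conj l)

theorem ev_conj {A : Type} [FLew A] (v : ℕ → A) (l : List Fm) :
    ev v (conj l) = 1 ↔ ∀ ψ ∈ l, ev v ψ = 1 := by
  induction l with
  | nil => simp [conj, ev]
  | cons φ l i =>
    simp only [conj, ev, List.forall_mem_cons, ← i]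
    constructor
    · intro h
      exact ⟨le_antisymm (FLew.le_one _) (h.ge.trans inf_le_left),
        le_antisymm (FLew.le_one _) (h.ge.trans inf_le_right)⟩
    · rintro ⟨a, b⟩
      rw [a, b, inf_idem]

theorem vars_conj (l : List Fm) (W : Set ℕ) (h : ∀ ψ ∈ l, vars ψ ⊆ W) : vars (conj l) ⊆ W := by
  induction l with
  | nil => simp [conj, vars]
  | cons φ l i =>
    simp only [List.forall_mem_cons] at h
    exact Set.union_subset h.1 (i h.2)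

def Disc (A : Type) [FLew A] : Prop :=
  (FLew.zero : A) ≠ 1 ∧ ∀ x : A, x = 1 ∨ x * (x * (x * x)) = FLew.zero

theorem ev_np4 {A : Type} [FLew A] (h : Disc A) (v : ℕ → A) (θ : Fm) :
    ev v (.imp (p4 θ) .f) = 1 ↔ ev v θ ≠ 1 := by
  simp only [ev, p4, imp_eq_one]
  constructor
  · intro a b
    rw [b, one_mul, one_mul, one_mul] at a
    exact h.1 (le_antisymm (FLew.le_one _) a)
  · intro a
    exact ((h.2 _).resolve_left a).le

theorem same {A A' : Type} [FLew A] [FLew A'] (h : Disc A) (h' : Disc A') (v : ℕ → A)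
    (v' : ℕ → A') (W : Set ℕ) (H : ∀ θ, vars θ ⊆ W → ev v' θ = 1 → ev v θ = 1) (θ : Fm)
    (hθ : vars θ ⊆ W) : ev v θ = 1 ↔ ev v' θ = 1 := by
  refine ⟨fun a => ?_, H θ hθ⟩
  by_contra b
  exact (ev_np4 h v θ).1 (H _ (by simpa [vars, p4] using hθ) ((ev_np4 h' v' θ).2 b)) a

section
variable {ι : Type 1} (M : ι → Type) [∀ i, FLew (M i)]

def Mod (Γ : Set Fm) (φ : Fm) : Prop :=
  ∀ i (v : ℕ → M i), (∀ ψ ∈ Γ, ev v ψ = 1) → ev v φ = 1

def Lg : Set Fm := {φ | Mod M ∅ φ}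

def Ult : Prop := ∀ (I : Type) (𝒰 : Ultrafilter I) (k : I → ι) (v : ∀ i, ℕ → M (k i)),
  ∃ (j : ι) (u : ℕ → M j), ∀ θ, ev u θ = 1 ↔ ∀ᶠ i in 𝒰, ev (v i) θ = 1

def Amal : Prop := ∀ i j (v : ℕ → M i) (v' : ℕ → M j) (W : Set ℕ),
  (∀ θ, vars θ ⊆ W → (ev v θ = 1 ↔ ev v' θ = 1)) → ∃ (k : ι) (u u' : ℕ → M k),
    (∀ w ∈ W, u w = u' w) ∧ (∀ θ, ev u θ = 1 ↔ ev v θ = 1) ∧ ∀ θ, ev u' θ = 1 ↔ ev v' θ = 1

theorem Lg_sub : SubClosed (Lg M) := by
  intro φ h σ i v _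
  rw [ev_sub]
  exact h i _ (by simp)

variable {M}

theorem comp (hU : Ult M) {Γ : Set Fm} {φ : Fm} (h : Mod M Γ φ) :
    ∃ l : List Fm, (∀ ψ ∈ l, ψ ∈ Γ) ∧ Mod M {ψ | ψ ∈ l} φ := by
  classical
  by_contra c
  push Not at c
  have : ∀ s : Finset Γ, ∃ (i : ι) (v : ℕ → M i), (∀ ψ ∈ s, ev v ψ.1 = 1) ∧ ev v φ ≠ 1 := by
    intro s
    have := c (s.toList.map Subtype.val) (by
      intro ψ hψ
      obtain ⟨x, _, rfl⟩ := List.mem_map.1 hψ
      exact x.2)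
    simp only [Mod, not_forall] at this
    obtain ⟨i, v, a, b⟩ := this
    exact ⟨i, v, fun ψ hψ => a _ (List.mem_map.2 ⟨ψ, Finset.mem_toList.2 hψ, rfl⟩), b⟩
  choose k v h1 h2 using this
  obtain ⟨j, u, hu⟩ := hU _ (Ultrafilter.of (atTop : Filter (Finset Γ))) k v
  have := (hu φ).1 (h j u (fun ψ hψ => (hu ψ).2 (by
    refine (Ultrafilter.of_le _) ?_
    filter_upwards [eventually_ge_atTop ({⟨ψ, hψ⟩} : Finset Γ)] with s hs
    exact h1 s ⟨ψ, hψ⟩ (hs (Finset.mem_singleton_self _)))))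
  obtain ⟨s, hs⟩ := this.exists
  exact h2 s hs

theorem link (hU : Ult M) (hD : ∀ i, Disc (M i)) {Γ : Set Fm} {φ : Fm} (h : Mod M Γ φ) :
    ConsF (Lg M) Γ φ := by
  obtain ⟨l, h1, h2⟩ := comp hU h
  intro A _ v hv
  have : Fm.imp (p4 (conj l)) φ ∈ Lg M := by
    intro i u _
    simp only [ev, p4, imp_eq_one]
    rcases (hD i).2 (ev u (conj l)) with a | a
    · rw [h2 i u ((ev_conj u l).1 a)]
      exact FLew.le_one _
    · rw [a]
      exact FLew.zero_le _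
  have := hv _ (.inl this)
  simp only [ev, p4, imp_eq_one, (ev_conj v l).2 (fun ψ hψ => hv ψ (.inr (h1 ψ hψ))),
    one_mul] at this
  exact le_antisymm (FLew.le_one _) this

theorem linkF (hU : Ult M) (hD : ∀ i, Disc (M i)) : ConsF (Lg M) = Mod M := by
  funext Γ φ
  refine propext ⟨fun h i v hv => h _ v ?_, link hU hD⟩
  rintro ψ (a | a)
  · exact a i v (by simp)
  · exact hv ψ a

theorem linkM (hU : Ult M) (hD : ∀ i, Disc (M i))
    (hP : ∀ i (x y : M i), FLew.imp x y ⊔ FLew.imp y x = 1) : ConsM (Lg M) = Mod M := by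
  funext Γ φ
  refine propext ⟨fun h i v hv => h _ (hP i) v ?_, fun h A _ _ => link hU hD h A⟩
  rintro ψ (a | a)
  · exact a i v (by simp)
  · exact hv ψ a

theorem dip (hU : Ult M) (hD : ∀ i, Disc (M i)) (hA : Amal M) : DIP (Mod M) := by
  classical
  intro Γ φ h
  refine ⟨{δ | vars δ ⊆ (⋃ γ ∈ Γ, vars γ) ∩ vars φ ∧ Mod M Γ δ}, fun δ a => a.1, fun δ a => a.2,
    fun j v' hv' => ?_⟩
  generalize hW : (⋃ γ ∈ Γ, vars γ) ∩ vars φ = W at hv'
  have : ¬ Mod M (Γ ∪ {θ | vars θ ⊆ W ∧ ev v' θ = 1}) .f := by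
    intro c
    obtain ⟨l, h1, h2⟩ := comp hU c
    have a : ∀ ψ ∈ l.filter (fun ψ => ψ ∉ Γ), vars ψ ⊆ W ∧ ev v' ψ = 1 := by
      intro ψ hψ
      rw [List.mem_filter] at hψ
      exact (h1 ψ hψ.1).resolve_left (by simpa using hψ.2)
    refine (ev_np4 (hD j) v' (conj (l.filter (fun ψ => ψ ∉ Γ)))).1 (hv' _ ⟨?_, ?_⟩)
      ((ev_conj _ _).2 (fun ψ hψ => (a ψ hψ).2))
    · simpa [vars, p4] using vars_conj _ W (fun ψ hψ => (a ψ hψ).1)
    · intro i v hv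
      refine (ev_np4 (hD i) v _).2 (fun b => (hD i).1 (h2 i v (fun ψ hψ => ?_)))
      by_cases d : ψ ∈ Γ
      · exact hv ψ d
      · exact (ev_conj _ _).1 b ψ (List.mem_filter.2 ⟨hψ, by simpa using d⟩)
  simp only [Mod, not_forall] at this
  obtain ⟨i, v, hv, -⟩ := this
  obtain ⟨k, u, u', e1, e2, e3⟩ := hA i j v v' W
    (same (hD i) (hD j) v v' W (fun θ a b => hv θ (.inr ⟨a, b⟩)))
  rw [← e3, ← ev_congr (fun n => if n ∈ vars φ then u' n else u n) u' φ (fun n hn => if_pos hn)]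
  refine h k _ (fun ψ hψ => ?_)
  rw [ev_congr _ u ψ, e2]
  · exact hv ψ (.inl hψ)
  · intro n hn
    split_ifs with a
    · exact (e1 n (hW ▸ ⟨Set.mem_biUnion hψ hn, a⟩)).symm
    · rfl

end

end Pool.Agent.H.MP_db33a0_lc
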