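import Mathlib
import Pool.Agent.H.MP_db33a0_lc.A

namespace Pool.Agent.H.MP_db33a0_lc

open Filter

class TU (U : Type) extends LinearOrder U where
  m : U
  g : U → U → U
  le_m : ∀ u, u ≤ m
  comm : ∀ u v, g u v = g v u
  gal : ∀ u v w, w ≤ g u v ↔ v ≤ g u w

inductive E (U : Type)
  | zero | lo (u : U) | hi (u : U) | one

namespace E
variable {U : Type} [TU U]

def le : E U → E U → Prop
  | zero, _ => True
  | _, one => True
  | lo u, lo v => v ≤ u
  | lo _, hi _ => True
  | hi u, hi v => u ≤ v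
  | _, _ => False

open Classical in
noncomputable instance : LinearOrder (E U) where
  le := le
  le_refl a := by cases a <;> simp [le]
  le_trans a b c := by cases a <;> cases b <;> cases c <;> simp [le] <;> intros <;> order
  le_antisymm a b := by cases a <;> cases b <;> simp [le] <;> intros <;> order
  le_total a b := by cases a <;> cases b <;> simp [le, le_total]
  toDecidableLE := fun _ _ => inferInstance

theorem le_def (a b : E U) : a ≤ b ↔ le a b := Iff.rfl

def mul : E U → E U → E U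
  | one, x => x
  | x, one => x
  | hi u, hi v => lo (TU.g u v)
  | hi u, lo v => if u ≤ v then zero else lo TU.m
  | lo v, hi u => if u ≤ v then zero else lo TU.m
  | _, _ => zero

def neg : E U → E U
  | zero => one
  | one => zero
  | lo u => hi u
  | hi u => lo u

theorem mul_comm' (a b : E U) : mul a b = mul b a := by
  cases a <;> cases b <;> simp [mul, TU.comm]

theorem gal' (a b c : U) : c ≤ TU.g a b ↔ a ≤ TU.g b c := by
  rw [TU.comm a b, TU.gal]

theorem mul_assoc' (a b c : E U) : mul (mul a b) c = mul a (mul b c) := by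
  rcases a with _ | a | a | _ <;> rcases b with _ | b | b | _ <;> rcases c with _ | c | c | _ <;>
    simp only [mul] <;> (try split_ifs) <;> (try simp only [mul, TU.le_m, if_true])
  all_goals
    rename_i h1 h2
    rw [gal' a b c] at h1
    first | exact absurd h1 h2 | exact absurd h2 h1

theorem mul_zero_iff (a b : E U) : mul a b = zero ↔ a ≤ neg b := by
  cases a <;> cases b <;> simp [mul, neg, E.le_def, le]

theorem neg_neg' (a : E U) : neg (neg a) = a := by cases a <;> rfl

noncomputable instance : FLew (E U) where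
  mul := mul
  one := one
  mul_assoc := mul_assoc'
  mul_comm := mul_comm'
  one_mul a := by cases a <;> rfl
  mul_one a := by cases a <;> rfl
  zero := zero
  imp x y := neg (mul x (neg y))
  le_one a := by cases a <;> trivial
  zero_le a := by cases a <;> trivial
  res x y z := by
    show mul x y ≤ z ↔ _
    rw [← mul_zero_iff, ← mul_assoc', mul_zero_iff, neg_neg']

theorem mul_def (a b : E U) : a * b = mul a b := rfl
theorem one_def : (1 : E U) = one := rfl
theorem zero_def : (FLew.zero : E U) = zero := rfl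
theorem imp_def (a b : E U) : FLew.imp a b = neg (mul a (neg b)) := rfl

theorem disc : Disc (E U) := by
  refine ⟨by simp [one_def, zero_def], fun x => ?_⟩
  rcases x with _ | u | u | _ <;> simp only [mul_def, one_def, zero_def, mul, true_or, or_true]
  split_ifs <;> simp [mul, TU.le_m]

theorem prelin (x y : E U) : FLew.imp x y ⊔ FLew.imp y x = 1 := by
  rcases le_total x y with h | h
  · exact le_antisymm (FLew.le_one _) (((imp_eq_one x y).2 h).ge.trans le_sup_left)
  · exact le_antisymm (FLew.le_one _) (((imp_eq_one y x).2 h).ge.trans le_sup_right)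

end E

open E

section
variable {I : Type} (𝒰 : Ultrafilter I) {U : I → Type} [∀ i, TU (U i)] {U' : Type} [TU U']
  (R : (∀ i, U i) → U' → Prop)

structure Good : Prop where
  le : ∀ a b a' b', R a b → R a' b' → (b ≤ b' ↔ ∀ᶠ i in 𝒰, a i ≤ a' i)
  g : ∀ a b a' b', R a b → R a' b' → R (fun i => TU.g (a i) (a' i)) (TU.g b b')
  m : ∀ a b a' b', R a b → R a' b' → ¬ b ≤ b' → R (fun _ => TU.m) TU.m

inductive Lim (a : ∀ i, E (U i)) : E U' → Prop
  | zero : (∀ᶠ i in 𝒰, a i = zero) → Lim a zero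
  | one : (∀ᶠ i in 𝒰, a i = one) → Lim a one
  | lo (u u') : R u u' → (∀ᶠ i in 𝒰, a i = lo (u i)) → Lim a (lo u')
  | hi (u u') : R u u' → (∀ᶠ i in 𝒰, a i = hi (u i)) → Lim a (hi u')

variable {𝒰 R}

theorem Lim.congr {a a' : ∀ i, E (U i)} {b : E U'} (h : Lim 𝒰 R a b)
    (e : ∀ᶠ i in 𝒰, a' i = a i) : Lim 𝒰 R a' b := by
  rcases h with h | h | ⟨u, u', r, h⟩ | ⟨u, u', r, h⟩
  · exact .zero (by filter_upwards [h, e] with i x y using y.trans x)
  · exact .one (by filter_upwards [h, e] with i x y using y.trans x)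
  · exact .lo u u' r (by filter_upwards [h, e] with i x y using y.trans x)
  · exact .hi u u' r (by filter_upwards [h, e] with i x y using y.trans x)

theorem ev_iff {p q : I → Prop} (h : ∀ᶠ i in 𝒰, p i ↔ q i) :
    (∀ᶠ i in 𝒰, p i) ↔ ∀ᶠ i in 𝒰, q i := eventually_congr h

theorem Lim.le_iff (G : Good 𝒰 R) {a a' : ∀ i, E (U i)} {b b' : E U'} (h : Lim 𝒰 R a b)
    (h' : Lim 𝒰 R a' b') : b ≤ b' ↔ ∀ᶠ i in 𝒰, a i ≤ a' i := by
  rcases h with h | h | ⟨u, u', r, h⟩ | ⟨u, u', r, h⟩ <;>
    rcases h' with h' | h' | ⟨v, v', r', h'⟩ | ⟨v, v', r', h'⟩ <;>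
    rw [ev_iff (by filter_upwards [h, h'] with i x y; rw [x, y])] <;>
    simp only [E.le_def, E.le, eventually_const]
  · exact G.le _ _ _ _ r' r
  · exact G.le _ _ _ _ r r'

theorem Lim.neg {a : ∀ i, E (U i)} {b : E U'} (h : Lim 𝒰 R a b) :
    Lim 𝒰 R (fun i => neg (a i)) (neg b) := by
  rcases h with h | h | ⟨u, u', r, h⟩ | ⟨u, u', r, h⟩
  · exact .one (by filter_upwards [h] with i x; rw [x]; rfl)
  · exact .zero (by filter_upwards [h] with i x; rw [x]; rfl)
  · exact .hi u u' r (by filter_upwards [h] with i x; rw [x]; rfl)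
  · exact .lo u u' r (by filter_upwards [h] with i x; rw [x]; rfl)

theorem Lim.hilo (G : Good 𝒰 R) {u v : ∀ i, U i} {u' v' : U'} (r : R u u') (r' : R v v') :
    Lim 𝒰 R (fun i => if u i ≤ v i then E.zero else E.lo TU.m)
      (if u' ≤ v' then E.zero else E.lo TU.m) := by
  split_ifs with c
  · exact .zero (by filter_upwards [(G.le _ _ _ _ r r').1 c] with i x using if_pos x)
  · refine .lo _ _ (G.m _ _ _ _ r r' c) ?_
    rw [G.le _ _ _ _ r r', ← Ultrafilter.eventually_not] at c
    filter_upwards [c] with i x using if_neg x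

theorem Lim.mul (G : Good 𝒰 R) {a a' : ∀ i, E (U i)} {b b' : E U'} (h : Lim 𝒰 R a b)
    (h' : Lim 𝒰 R a' b') : Lim 𝒰 R (fun i => E.mul (a i) (a' i)) (E.mul b b') := by
  have k := h
  have k' := h'
  rcases h with h | h | ⟨u, u', r, h⟩ | ⟨u, u', r, h⟩ <;>
    rcases h' with h' | h' | ⟨v, v', r', h'⟩ | ⟨v, v', r', h'⟩
  · exact .zero (by filter_upwards [h, h'] with i x y; rw [x, y]; rfl)
  · exact .zero (by filter_upwards [h, h'] with i x y; rw [x, y]; rfl)
  · exact .zero (by filter_upwards [h, h'] with i x y; rw [x, y]; rfl)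
  · exact .zero (by filter_upwards [h, h'] with i x y; rw [x, y]; rfl)
  · exact .zero (by filter_upwards [h, h'] with i x y; rw [x, y]; rfl)
  · exact .one (by filter_upwards [h, h'] with i x y; rw [x, y]; rfl)
  · exact k'.congr (by filter_upwards [h, h'] with i x y; rw [x, y]; rfl)
  · exact k'.congr (by filter_upwards [h, h'] with i x y; rw [x, y]; rfl)
  · exact .zero (by filter_upwards [h, h'] with i x y; rw [x, y]; rfl)
  · exact k.congr (by filter_upwards [h, h'] with i x y; rw [x, y]; rfl)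
  · exact .zero (by filter_upwards [h, h'] with i x y; rw [x, y]; rfl)
  · exact (Lim.hilo G r' r).congr (by filter_upwards [h, h'] with i x y; rw [x, y]; rfl)
  · exact .zero (by filter_upwards [h, h'] with i x y; rw [x, y]; rfl)
  · exact k.congr (by filter_upwards [h, h'] with i x y; rw [x, y]; rfl)
  · exact (Lim.hilo G r r').congr (by filter_upwards [h, h'] with i x y; rw [x, y]; rfl)
  · exact .lo _ _ (G.g _ _ _ _ r r') (by filter_upwards [h, h'] with i x y; rw [x, y]; rfl)

theorem Lim.ev (G : Good 𝒰 R) (v : ∀ i, ℕ → E (U i)) (u : ℕ → E U') (θ : Fm)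
    (h : ∀ n ∈ vars θ, Lim 𝒰 R (fun i => v i n) (u n)) :
    Lim 𝒰 R (fun i => ev (v i) θ) (ev u θ) := by
  induction θ with
  | var n => exact h n rfl
  | e => exact .one (Eventually.of_forall fun _ => rfl)
  | f => exact .zero (Eventually.of_forall fun _ => rfl)
  | and φ ψ i1 i2 =>
    have a := i1 (fun n hn => h n (.inl hn))
    have b := i2 (fun n hn => h n (.inr hn))
    simp only [MP_db33a0_lc.ev]
    rcases le_total (MP_db33a0_lc.ev u φ) (MP_db33a0_lc.ev u ψ) with c | c
    · rw [inf_eq_left.2 c]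
      exact a.congr (by filter_upwards [(a.le_iff G b).1 c] with i x using inf_eq_left.2 x)
    · rw [inf_eq_right.2 c]
      exact b.congr (by filter_upwards [(b.le_iff G a).1 c] with i x using inf_eq_right.2 x)
  | or φ ψ i1 i2 =>
    have a := i1 (fun n hn => h n (.inl hn))
    have b := i2 (fun n hn => h n (.inr hn))
    simp only [MP_db33a0_lc.ev]
    rcases le_total (MP_db33a0_lc.ev u φ) (MP_db33a0_lc.ev u ψ) with c | c
    · rw [sup_eq_right.2 c]
      exact b.congr (by filter_upwards [(a.le_iff G b).1 c] with i x using sup_eq_right.2 x)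
    · rw [sup_eq_left.2 c]
      exact a.congr (by filter_upwards [(b.le_iff G a).1 c] with i x using sup_eq_left.2 x)
  | mul φ ψ i1 i2 => exact (i1 (fun n hn => h n (.inl hn))).mul G (i2 (fun n hn => h n (.inr hn)))
  | imp φ ψ i1 i2 =>
    exact ((i1 (fun n hn => h n (.inl hn))).mul G (i2 (fun n hn => h n (.inr hn))).neg).neg

theorem Lim.one_iff (G : Good 𝒰 R) {a : ∀ i, E (U i)} {b : E U'} (h : Lim 𝒰 R a b) :
    b = 1 ↔ ∀ᶠ i in 𝒰, a i = 1 := by
  have := Lim.le_iff G (a := fun _ => E.one) (.one (Eventually.of_forall fun _ => rfl)) h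
  constructor
  · intro e
    filter_upwards [this.1 e.ge] with i x using le_antisymm (FLew.le_one _) x
  · intro e
    exact le_antisymm (FLew.le_one _) (this.2 (by filter_upwards [e] with i x using x.ge))

theorem Lim.total (hR : ∀ a, ∃ b, R a b) (a : ∀ i, E (U i)) : ∃ b, Lim 𝒰 R a b := by
  let u : ∀ i, U i := fun i => match a i with
    | .lo x => x
    | .hi x => x
    | _ => TU.m
  obtain ⟨b, hb⟩ := hR u
  have : ∀ᶠ i in 𝒰, a i = .zero ∨ a i = .one ∨ a i = .lo (u i) ∨ a i = .hi (u i) :=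
    Eventually.of_forall fun i => by simp only [u]; cases a i <;> simp
  simp only [Ultrafilter.eventually_or] at this
  rcases this with h | h | h | h
  · exact ⟨_, .zero h⟩
  · exact ⟨_, .one h⟩
  · exact ⟨_, .lo u b hb h⟩
  · exact ⟨_, .hi u b hb h⟩

theorem ult (G : Good 𝒰 R) (hR : ∀ a, ∃ b, R a b) (v : ∀ i, ℕ → E (U i)) :
    ∃ u : ℕ → E U', ∀ θ, MP_db33a0_lc.ev u θ = 1 ↔ ∀ᶠ i in 𝒰, MP_db33a0_lc.ev (v i) θ = 1 := by
  choose u hu using fun n => Lim.total (𝒰 := 𝒰) hR (fun i => v i n)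
  exact ⟨u, fun θ => (Lim.ev G v u θ (fun n _ => hu n)).one_iff G⟩

end

section
variable {U U' : Type} [TU U] [TU U']

structure PIso (S : U → U' → Prop) : Prop where
  le : ∀ a b a' b', S a b → S a' b' → (a ≤ a' ↔ b ≤ b')
  g : ∀ a b a' b', S a b → S a' b' → S (TU.g a a') (TU.g b b')
  m : ∀ a b a' b', S a b → S a' b' → ¬ a ≤ a' → S TU.m TU.m

inductive Rel (S : U → U' → Prop) : E U → E U' → Prop
  | zero : Rel S zero zero
  | one : Rel S one one
  | lo (u u') : S u u' → Rel S (lo u) (lo u')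
  | hi (u u') : S u u' → Rel S (hi u) (hi u')

theorem PIso.same {S : U → U' → Prop} (h : PIso S) (v : ℕ → E U) (v' : ℕ → E U') (θ : Fm)
    (hv : ∀ n ∈ vars θ, Rel S (v n) (v' n)) : ev v' θ = 1 ↔ ev v θ = 1 := by
  have G : Good (pure () : Ultrafilter Unit) (U := fun _ => U) (fun a b => S (a ()) b) :=
    ⟨fun a b a' b' r r' => by simpa using (h.le _ _ _ _ r r').symm,
      fun a b a' b' r r' => h.g _ _ _ _ r r',
      fun a b a' b' r r' c => h.m _ _ _ _ r r' (by rwa [h.le _ _ _ _ r r'])⟩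
  have := (Lim.ev G (fun _ => v) v' θ (fun n hn => by
    have := hv n hn
    generalize v n = x, v' n = y at this
    rcases this with _ | _ | ⟨u, u', r⟩ | ⟨u, u', r⟩
    · exact .zero (by simp)
    · exact .one (by simp)
    · exact .lo (fun _ => u) u' r (by simp)
    · exact .hi (fun _ => u) u' r (by simp))).one_iff G
  simpa using this

def E.map (f : U → U') : E U → E U'
  | .zero => .zero
  | .one => .one
  | .lo u => .lo (f u)
  | .hi u => .hi (f u)

theorem map_same (f : U → U') (h : PIso (fun a b => f a = b)) (v : ℕ → E U) (θ : Fm) :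
    ev (fun n => E.map f (v n)) θ = 1 ↔ ev v θ = 1 :=
  h.same v _ θ (fun n _ => by
    cases v n
    · exact .zero
    · exact .lo _ _ rfl
    · exact .hi _ _ rfl
    · exact .one)

theorem exists_piso (v : ℕ → E U) (v' : ℕ → E U') (W : Set ℕ)
    (h : ∀ θ, vars θ ⊆ W → (ev v θ = 1 ↔ ev v' θ = 1)) :
    ∃ S : U → U' → Prop, PIso S ∧ ∀ w ∈ W, Rel S (v w) (v' w) := by
  have le : ∀ θ θ', vars θ ⊆ W → vars θ' ⊆ W → (ev v θ ≤ ev v θ' ↔ ev v' θ ≤ ev v' θ') := by
    intro θ θ' a b
    simpa only [ev, imp_eq_one] using h (.imp θ θ') (Set.union_subset a b)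
  have ng : ∀ θ, ev v (.imp θ .f) = neg (ev v θ) := fun θ => by
    simp only [ev, imp_def, zero_def, E.neg]
    cases ev v θ <;> rfl
  have ng' : ∀ θ, ev v' (.imp θ .f) = neg (ev v' θ) := fun θ => by
    simp only [ev, imp_def, zero_def, E.neg]
    cases ev v' θ <;> rfl
  refine ⟨fun u u' => ∃ θ, vars θ ⊆ W ∧ ev v θ = hi u ∧ ev v' θ = hi u', ⟨?_, ?_, ?_⟩, ?_⟩
  · rintro a b a' b' ⟨θ, x, y, z⟩ ⟨θ', x', y', z'⟩
    have := le θ θ' x x'
    rwa [y, y', z, z'] at this
  · rintro a b a' b' ⟨θ, x, y, z⟩ ⟨θ', x', y', z'⟩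
    refine ⟨.imp (.mul θ θ') .f, by simp [vars, x, x'], ?_, ?_⟩
    · rw [ng, ev, y, y']; rfl
    · rw [ng', ev, z, z']; rfl
  · rintro a b a' b' ⟨θ, x, y, z⟩ ⟨θ', x', y', z'⟩ c
    have c' := le θ θ' x x'
    rw [y, y', z, z'] at c'
    have c' : ¬ b ≤ b' := fun d => c (c'.2 d)
    refine ⟨.imp (.mul θ (.imp θ' .f)) .f, by simp [vars, x, x'], ?_, ?_⟩
    · rw [ng, ev, ng, y, y']; simp [mul_def, E.mul, E.neg, c]
    · rw [ng', ev, ng', z, z']; simp [mul_def, E.mul, E.neg, c']
  · intro w hw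
    have a : vars (.var w) ⊆ W := by simpa [vars] using hw
    have b : vars (.imp (.var w) .f) ⊆ W := by simpa [vars] using hw
    have h1 := le .e _ (by simp [vars]) a
    have h2 := le .e _ (by simp [vars]) b
    have h3 := le _ _ a b
    have n1 := ng (.var w)
    have n2 := ng' (.var w)
    rw [n1, n2] at h2 h3
    simp only [ev, one_def] at h1 h2 h3
    have e1 : ev v (.var w) = v w := rfl
    have e2 : ev v' (.var w) = v' w := rfl
    rw [e1] at n1
    rw [e2] at n2
    generalize v w = x, v' w = y at *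
    cases x <;> cases y <;> simp [E.le_def, E.le, E.neg] at h1 h2 h3
    · exact .zero
    · exact .lo _ _ ⟨_, b, n1, n2⟩
    · exact .hi _ _ ⟨_, a, e1, e2⟩
    · exact .one

end

end Pool.Agent.H.MP_db33a0_lc
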