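import Mathlib
import Pool.Agent.H.MP_db33a0_lc.B

namespace Pool.Agent.H.MP_db33a0_lc

open Filter

structure Ok {X : Type} (r : X → X → Prop) (s s' t t' : X → X) : Prop where
  a1 : ∀ x y, r (s' x) y ↔ r x (s y)
  a2 : ∀ x y, r (s x) y ↔ r x (s' y)
  a3 : ∀ x y, r (t' x) y ↔ r x (t y)
  a4 : ∀ x y, r (t x) y ↔ r x (t' y)
  h1 : ∀ y, r y (s y)
  h2 : ∀ y, r (s y) (t y)

class Ch (Y : Type) extends LinearOrder Y where
  s : Y → Y
  s' : Y → Y
  t : Y → Y
  t' : Y → Y
  ok : Ok (· ≤ ·) s s' t t'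

open Ch

inductive V (Y : Type)
  | c (i : Fin 8) | P (y : Y) | Q (y : Y)

namespace V
variable {Y : Type} [Ch Y]

def le : V Y → V Y → Prop
  | c i, c j => i ≤ j
  | c i, P _ => i ≤ 5
  | c i, Q _ => i ≤ 1
  | P _, c j => 6 ≤ j
  | Q _, c j => 2 ≤ j
  | P x, P y => x ≤ y
  | Q x, Q y => y ≤ x
  | P _, Q _ => False
  | Q _, P _ => True

def g0 : Fin 8 → Fin 8 → Fin 8 :=
  ![![7,7,7,7,7,7,7,7],![7,7,7,7,7,6,6,4],![7,7,6,5,5,5,2,1],![7,7,5,5,5,5,1,1],
    ![7,7,5,5,5,4,1,1],![7,6,5,5,4,3,1,0],![7,6,2,1,1,1,1,0],![7,4,1,1,1,0,0,0]]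

def gP (x : Y) (j : Fin 8) : V Y :=
  if j = 3 then Q (t' x) else if j = 4 then Q (s' x) else if j = 5 then Q x else c (g0 6 j)

def gQ (x : Y) (j : Fin 8) : V Y :=
  if j = 3 then P (t x) else if j = 4 then P (s x) else if j = 5 then P x else c (g0 2 j)

open Classical in
noncomputable def lev (p q r : Prop) : Fin 8 := if p then 5 else if q then 4 else if r then 3 else 2

noncomputable def g : V Y → V Y → V Y
  | c i, c j => c (g0 i j)
  | c i, P x => gP x i
  | c i, Q x => gQ x i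
  | P x, c j => gP x j
  | Q x, c j => gQ x j
  | P _, P _ => c 1
  | Q _, Q _ => c 6
  | P x, Q z => c (lev (x ≤ z) (x ≤ s z) (x ≤ t z))
  | Q z, P x => c (lev (x ≤ z) (x ≤ s z) (x ≤ t z))

theorem g_comm (u v : V Y) : g u v = g v u := by
  cases u <;> cases v <;> simp only [g]
  congr 1
  rename_i i j
  revert i j
  decide

theorem lev_le (p q r : Prop) : 2 ≤ lev p q r ∧ lev p q r ≤ 5 := by
  unfold lev
  split_ifs <;> decide

theorem ccP (i j : Fin 8) (x : Y) : le (P x) (c (g0 i j)) ↔ le (c j) (gP x i) := by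
  unfold gP
  split_ifs <;> simp only [le] <;> revert i j <;> decide

theorem ccQ (i j : Fin 8) (x : Y) : le (Q x) (c (g0 i j)) ↔ le (c j) (gQ x i) := by
  unfold gQ
  split_ifs <;> simp only [le] <;> revert i j <;> decide

theorem cPP (i : Fin 8) (x y : Y) : le (P y) (gP x i) ↔ i ≤ 1 := by
  unfold gP
  split_ifs <;> simp only [le] <;> revert i <;> decide

theorem cQQ (i : Fin 8) (x y : Y) : le (Q y) (gQ x i) ↔ i ≤ 6 := by
  unfold gQ
  split_ifs <;> simp only [le] <;> revert i <;> decide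

theorem lev3 {x z : Y} : 3 ≤ lev (x ≤ z) (x ≤ s z) (x ≤ t z) ↔ x ≤ t z := by
  unfold lev
  split_ifs with a b c
  · exact iff_of_true (by decide) (a.trans ((ok.h1 z).trans (ok.h2 z)))
  · exact iff_of_true (by decide) (b.trans (ok.h2 z))
  · exact iff_of_true (by decide) c
  · exact iff_of_false (by decide) c

theorem lev4 {x z : Y} : 4 ≤ lev (x ≤ z) (x ≤ s z) (x ≤ t z) ↔ x ≤ s z := by
  unfold lev
  split_ifs with a b c
  · exact iff_of_true (by decide) (a.trans (ok.h1 z))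
  · exact iff_of_true (by decide) b
  · exact iff_of_false (by decide) b
  · exact iff_of_false (by decide) b

theorem lev5 {p q r : Prop} : 5 ≤ lev p q r ↔ p := by
  unfold lev
  split_ifs with a b c
  · exact iff_of_true (by decide) a
  · exact iff_of_false (by decide) a
  · exact iff_of_false (by decide) a
  · exact iff_of_false (by decide) a

theorem cPQ (i : Fin 8) (x z : Y) :
    le (Q z) (gP x i) ↔ i ≤ lev (x ≤ z) (x ≤ s z) (x ≤ t z) := by
  unfold gP
  split_ifs with a b c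
  · rw [a, lev3]; exact ok.a3 x z
  · rw [b, lev4]; exact ok.a1 x z
  · rw [c, lev5]; rfl
  · have := lev_le (x ≤ z) (x ≤ s z) (x ≤ t z)
    generalize lev _ _ _ = l at *
    simp only [le]
    revert i l
    decide

theorem cQP (i : Fin 8) (x z : Y) :
    le (P x) (gQ z i) ↔ i ≤ lev (x ≤ z) (x ≤ s z) (x ≤ t z) := by
  unfold gQ
  split_ifs with a b c
  · rw [a, lev3]; rfl
  · rw [b, lev4]; rfl
  · rw [c, lev5]; rfl
  · have := lev_le (x ≤ z) (x ≤ s z) (x ≤ t z)
    generalize lev _ _ _ = l at *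
    simp only [le]
    revert i l
    decide

theorem g0_comm : ∀ i j, g0 i j = g0 j i := by decide

theorem g0_gal : ∀ i j k, k ≤ g0 i j ↔ j ≤ g0 i k := by decide

theorem n6 (p q r : Prop) : ¬ 6 ≤ lev p q r := fun h => absurd (h.trans (lev_le p q r).2) (by decide)

theorem g_gal (u v w : V Y) : le w (g u v) ↔ le v (g u w) := by
  rcases u with i | x | x <;> rcases v with j | y | y <;> rcases w with k | z | z <;>
    simp only [g, g0_gal, ccP, ccQ, ← ccP, ← ccQ, cPP, cQQ, cPQ, cQP] <;>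
    simp [le, g0_gal, g0_comm, n6, (lev_le _ _ _).1]

open Classical in
noncomputable instance : TU (V Y) where
  le := le
  le_refl a := by cases a <;> simp [le]
  le_trans a b c := by cases a <;> cases b <;> cases c <;> simp only [le] <;> intros <;>
    first | omega | order | trivial
  le_antisymm a b := by cases a <;> cases b <;> simp only [le] <;> intros <;>
    first | omega | (congr 1; order) | contradiction
  le_total a b := by cases a <;> cases b <;> simp only [le, le_total] <;> first | omega | simp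
  toDecidableLE := fun _ _ => inferInstance
  m := c 7
  g := g
  le_m a := by cases a <;> simp only [le] <;> omega
  comm := g_comm
  gal := g_gal

theorem le_iff (a b : V Y) : a ≤ b ↔ le a b := Iff.rfl
theorem g_def (a b : V Y) : TU.g a b = g a b := rfl
theorem m_def : (TU.m : V Y) = c 7 := rfl

end V

open V

theorem PIso.symm {U U' : Type} [TU U] [TU U'] {S : U → U' → Prop} (h : PIso S) :
    PIso (fun b a => S a b) :=
  ⟨fun _ _ _ _ r r' => (h.le _ _ _ _ r r').symm, fun _ _ _ _ r r' => h.g _ _ _ _ r r',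
    fun _ _ _ _ r r' c => h.m _ _ _ _ r r' (by rwa [h.le _ _ _ _ r r'])⟩

section
variable {Y Y' : Type} [Ch Y] [Ch Y'] {S : V Y → V Y' → Prop}

theorem PIso.cg (h : PIso S) {i j i' j' : Fin 8} (r : S (c i) (c j)) (r' : S (c i') (c j')) :
    S (c (g0 i i')) (c (g0 j j')) := h.g _ _ _ _ r r'

theorem PIso.cle (h : PIso S) {i j i' j' : Fin 8} (r : S (c i) (c j)) (r' : S (c i') (c j')) :
    i ≤ i' ↔ j ≤ j' := h.le _ _ _ _ r r'

theorem PIso.c7 (h : PIso S) {i j : Fin 8} (r : S (c i) (c j)) : S (c 7) (c 7) := by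
  have r1 := h.cg r r
  have : ¬ i ≤ g0 i i ∨ ¬ g0 i i ≤ i := by clear r r1; revert i; decide
  rcases this with a | a
  · exact h.m _ _ _ _ r r1 a
  · exact h.m _ _ _ _ r1 r a

theorem PIso.cc (h : PIso S) {i j : Fin 8} (r : S (c i) (c j)) : i = j := by
  have m := h.c7 r
  have d := h.cg r r
  have dd := h.cg d d
  have h1 := h.cle r (h.cg m m)
  have h2 := h.cle m r
  have h3 := h.cle m d
  have h4 := h.cle m dd
  have h5 := h.cle m (h.cg dd dd)
  have h6 := h.cle d r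
  have h7 := h.cle (h.cg (h.cg r m) m) r
  clear r m d dd
  revert i j
  decide

theorem PIso.c1 (h : PIso S) (r : S (c 1) (c 1)) : S (c 3) (c 3) ∧ S (c 4) (c 4) ∧ S (c 5) (c 5) := by
  have a : S (c 4) (c 4) := h.cg r (h.c7 r)
  have b : S (c 5) (c 5) := h.cg a a
  exact ⟨h.cg b b, a, b⟩

theorem PIso.cP (h : PIso S) {i : Fin 8} {x : Y'} (r : S (c i) (P x)) : False := by
  have d : S (c (g0 i i)) (c 1) := h.g _ _ _ _ r r
  have e := h.cc d
  rw [e] at d
  obtain rfl : i = 6 := by clear r d; revert i; decide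
  obtain ⟨-, -, b⟩ := h.c1 d
  have : S (c 1) (Q x) := h.g _ _ _ _ r b
  have : (2 : Fin 8) ≤ 1 := (h.le _ _ _ _ this d).1 le_rfl
  exact absurd this (by decide)

theorem PIso.cQ (h : PIso S) {i : Fin 8} {x : Y'} (r : S (c i) (Q x)) : False := by
  have d : S (c (g0 i i)) (c 6) := h.g _ _ _ _ r r
  have e := h.cc d
  rw [e] at d
  obtain rfl : i = 2 := by clear r d; revert i; decide
  obtain ⟨-, -, b⟩ := h.c1 (h.cg d d)
  have : S (c 5) (P x) := h.g _ _ _ _ r b
  have : (6 : Fin 8) ≤ 5 := (h.le _ _ _ _ this b).1 le_rfl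
  exact absurd this (by decide)

theorem PIso.PQ (h : PIso S) {x : Y} {y : Y'} (r : S (P x) (Q y)) : False :=
  absurd (h.cc (h.g _ _ _ _ r r : S (c 1) (c 6))) (by decide)

theorem PIso.shape (h : PIso S) {a : V Y} {b : V Y'} (r : S a b) :
    (∃ i, a = c i ∧ b = c i) ∨ (∃ x y, a = P x ∧ b = P y ∧ S (P x) (P y)) ∨
      ∃ x y, a = Q x ∧ b = Q y ∧ S (P x) (P y) := by
  rcases a with i | x | x <;> rcases b with j | y | y
  · exact .inl ⟨i, rfl, by rw [h.cc r]⟩
  · exact (h.cP r).elim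
  · exact (h.cQ r).elim
  · exact (h.symm.cP r).elim
  · exact .inr (.inl ⟨x, y, rfl, rfl, r⟩)
  · exact (h.PQ r).elim
  · exact (h.symm.cQ r).elim
  · exact (h.symm.PQ r).elim
  · have d : S (c 6) (c 6) := h.g _ _ _ _ r r
    exact .inr (.inr ⟨x, y, rfl, rfl, h.g _ _ _ _ r (h.c1 (h.cg d d)).2.2⟩)

structure Cl (R : Y → Y' → Prop) : Prop where
  le : ∀ a b a' b', R a b → R a' b' → (a ≤ a' ↔ b ≤ b')
  s : ∀ a b, R a b → R (s a) (s b)
  s' : ∀ a b, R a b → R (s' a) (s' b)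
  t : ∀ a b, R a b → R (t a) (t b)
  t' : ∀ a b, R a b → R (t' a) (t' b)

theorem PIso.cl (h : PIso S) : Cl (fun x y => S (P x) (P y)) := by
  have k : ∀ x y, S (P x) (P y) → S (c 3) (c 3) ∧ S (c 4) (c 4) ∧ S (c 5) (c 5) :=
    fun x y r => h.c1 (h.g _ _ _ _ r r)
  refine ⟨fun a b a' b' r r' => h.le _ _ _ _ r r', fun a b r => ?_, fun a b r => ?_,
    fun a b r => ?_, fun a b r => ?_⟩ <;> obtain ⟨h3, h4, h5⟩ := k _ _ r
  · exact h.g _ _ _ _ (h.g _ _ _ _ r h5) h4
  · exact h.g _ _ _ _ (h.g _ _ _ _ r h4) h5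
  · exact h.g _ _ _ _ (h.g _ _ _ _ r h5) h3
  · exact h.g _ _ _ _ (h.g _ _ _ _ r h3) h5

def V.map {X X' : Type} (f : X → X') : V X → V X'
  | .c i => .c i
  | .P x => .P (f x)
  | .Q x => .Q (f x)

structure Emb {X : Type} (r : X → X → Prop) (s s' t t' : X → X) (f : X → Y') : Prop where
  le : ∀ a b, f a ≤ f b ↔ r a b
  s : ∀ a, f (s a) = Ch.s (f a)
  s' : ∀ a, f (s' a) = Ch.s' (f a)
  t : ∀ a, f (t a) = Ch.t (f a)
  t' : ∀ a, f (t' a) = Ch.t' (f a)

theorem Emb.piso {f : Y → Y'} (h : Emb (· ≤ ·) Ch.s Ch.s' Ch.t Ch.t' f) :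
    PIso (fun a b => V.map f a = b) := by
  have hP : ∀ x i, V.map f (gP x i) = gP (f x) i := by
    intro x i
    unfold gP
    split_ifs <;> simp only [V.map, h.s', h.t']
  have hQ : ∀ x i, V.map f (gQ x i) = gQ (f x) i := by
    intro x i
    unfold gQ
    split_ifs <;> simp only [V.map, h.s, h.t]
  refine ⟨?_, ?_, fun _ _ _ _ _ _ _ => rfl⟩
  · rintro a _ b _ rfl rfl
    cases a <;> cases b <;> simp only [V.le_iff, V.map, V.le, h.le]
  · rintro a _ b _ rfl rfl
    cases a <;> cases b <;> simp only [g_def, V.g, hP, hQ] <;>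
      simp only [V.map, V.g, ← h.s, ← h.t, h.le]

end

end Pool.Agent.H.MP_db33a0_lc
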