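import Mathlib
import Pool.Agent.H.MP_db33a0_lc.C

namespace Pool.Agent.H.MP_db33a0_lc

open Filter Ch V

def Cond (α : ℝ) {X : Type} (r : X → X → Prop) (s t : X → X) : Prop :=
  ∀ p q : ℕ, α * q < p → ∀ y, r (t^[q] y) (s^[p] y)

structure K (α : ℝ) : Type 1 where
  Y : Type
  [ch : Ch Y]
  [ne : Nonempty Y]
  cond : Cond α (· ≤ ·) (s : Y → Y) t

attribute [instance] K.ch K.ne

theorem quo (α : ℝ) {X : Type} [Nonempty X] (r : X → X → Prop) (tr : ∀ a b c, r a b → r b c → r a c)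
    (tot : ∀ a b, r a b ∨ r b a) (s s' t t' : X → X) (ok : Ok r s s' t t') (hc : Cond α r s t) :
    ∃ (k : K α) (f : X → k.Y), Emb r s s' t t' f := by
  classical
  have rf : ∀ a, r a a := fun a => (tot a a).elim id id
  letI : Preorder X := { le := r, le_refl := rf, le_trans := tr }
  haveI : @Std.Total X (· ≤ ·) := ⟨tot⟩
  have m : ∀ f f' : X → X, (∀ x y, r (f' x) y ↔ r x (f y)) → Monotone f := fun f f' h x y a =>
    (h _ _).1 (tr _ _ _ ((h _ _).2 (rf _)) a)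
  let F (f : X → X) (h : Monotone f) := OrderHom.antisymmetrization ⟨f, h⟩
  let C : Ch (Antisymmetrization X (· ≤ ·)) :=
    { s := F s (m _ _ ok.a1), s' := F s' (m _ _ ok.a2), t := F t (m _ _ ok.a3),
      t' := F t' (m _ _ ok.a4)
      ok := ⟨fun x y => Quotient.inductionOn₂' x y ok.a1, fun x y => Quotient.inductionOn₂' x y ok.a2,
        fun x y => Quotient.inductionOn₂' x y ok.a3, fun x y => Quotient.inductionOn₂' x y ok.a4,
        fun x => Quotient.inductionOn' x ok.h1, fun x => Quotient.inductionOn' x ok.h2⟩ }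
  refine ⟨@K.mk α _ C ⟨toAntisymmetrization _ (Classical.arbitrary X)⟩ ?_, toAntisymmetrization _,
    ⟨fun _ _ => Iff.rfl, fun _ => rfl, fun _ => rfl, fun _ => rfl, fun _ => rfl⟩⟩
  intro p q h y
  induction y using Antisymmetrization.ind with
  | _ y =>
  have a : Function.Semiconj (toAntisymmetrization (· ≤ ·)) s C.s := fun _ => rfl
  have b : Function.Semiconj (toAntisymmetrization (· ≤ ·)) t C.t := fun _ => rfl
  show _ ≤ _
  rw [← a.iterate_right p y, ← b.iterate_right q y]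
  exact hc p q h y

section
variable {Y Y' : Type} [LinearOrder Y] [LinearOrder Y'] (R : Y → Y' → Prop)

def am : Y ⊕ Y' → Y ⊕ Y' → Prop
  | .inl a, .inl a' => a ≤ a'
  | .inr b, .inr b' => b ≤ b'
  | .inl a, .inr b => (∃ c c', R c c' ∧ a ≤ c ∧ c' ≤ b) ∨ ¬ ∃ c c', R c c' ∧ b ≤ c' ∧ c ≤ a
  | .inr b, .inl a => ∃ c c', R c c' ∧ b ≤ c' ∧ c ≤ a

theorem am_tot (a b : Y ⊕ Y') : am R a b ∨ am R b a := by
  cases a <;> cases b <;> simp only [am, le_total] <;> tauto

variable {R}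

theorem am_tr (h : ∀ a b a' b', R a b → R a' b' → (a ≤ a' ↔ b ≤ b')) (a b c : Y ⊕ Y') :
    am R a b → am R b c → am R a c := by
  rcases a with a | a <;> rcases b with b | b <;> rcases c with c | c <;> simp only [am]
  · exact le_trans
  · rintro x (⟨d, d', r, y, z⟩ | y)
    · exact .inl ⟨d, d', r, x.trans y, z⟩
    · exact .inr fun ⟨d, d', r, u, v⟩ => y ⟨d, d', r, u, v.trans x⟩
  · rintro (⟨d, d', r, y, z⟩ | y) ⟨e, e', r', u, v⟩
    · exact y.trans (((h _ _ _ _ r r').2 (z.trans u)).trans v)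
    · by_contra x
      exact y ⟨e, e', r', u, v.trans (not_le.1 x).le⟩
  · rintro (⟨d, d', r, y, z⟩ | y) x
    · exact .inl ⟨d, d', r, y, z.trans x⟩
    · exact .inr fun ⟨d, d', r, u, v⟩ => y ⟨d, d', r, x.trans u, v⟩
  · rintro ⟨d, d', r, y, z⟩ x
    exact ⟨d, d', r, y, z.trans x⟩
  · rintro ⟨e, e', r', u, v⟩ (⟨d, d', r, y, z⟩ | y)
    · exact u.trans (((h _ _ _ _ r' r).1 (v.trans y)).trans z)
    · by_contra x
      exact y ⟨e, e', r', (not_le.1 x).le.trans u, v⟩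
  · rintro x ⟨d, d', r, y, z⟩
    exact ⟨d, d', r, x.trans y, z⟩
  · exact le_trans

theorem adj1 {Y : Type} [LinearOrder Y] {f f' : Y → Y} (h : ∀ x y, f' x ≤ y ↔ x ≤ f y) :
    Monotone f ∧ Monotone f' :=
  ⟨fun _ _ a => (h _ _).1 (((h _ _).2 le_rfl).trans a),
    fun _ _ a => (h _ _).2 (a.trans ((h _ _).1 le_rfl))⟩

theorem exG {f f' : Y → Y} {g g' : Y' → Y'} (h : ∀ x y, f' x ≤ y ↔ x ≤ f y)
    (k : ∀ x y, g' x ≤ y ↔ x ≤ g y) (c : ∀ a b, R a b → R (f a) (g b))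
    (c' : ∀ a b, R a b → R (f' a) (g' b)) (a : Y) (b : Y') :
    ((∃ c c', R c c' ∧ g' b ≤ c' ∧ c ≤ a) ↔ ∃ c c', R c c' ∧ b ≤ c' ∧ c ≤ f a) ∧
    ((∃ c c', R c c' ∧ f' a ≤ c ∧ c' ≤ b) ↔ ∃ c c', R c c' ∧ a ≤ c ∧ c' ≤ g b) :=
  ⟨⟨fun ⟨_, _, r, x, y⟩ => ⟨_, _, c _ _ r, (k _ _).1 x, (adj1 h).1 y⟩,
    fun ⟨_, _, r, x, y⟩ => ⟨_, _, c' _ _ r, (adj1 k).2 x, (h _ _).2 y⟩⟩,
   ⟨fun ⟨_, _, r, x, y⟩ => ⟨_, _, c _ _ r, (h _ _).1 x, (adj1 k).1 y⟩,
    fun ⟨_, _, r, x, y⟩ => ⟨_, _, c' _ _ r, (adj1 h).2 x, (k _ _).2 y⟩⟩⟩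

theorem am_adj {f f' : Y → Y} {g g' : Y' → Y'} (h : ∀ x y, f' x ≤ y ↔ x ≤ f y)
    (k : ∀ x y, g' x ≤ y ↔ x ≤ g y) (h' : ∀ x y, f x ≤ y ↔ x ≤ f' y)
    (k' : ∀ x y, g x ≤ y ↔ x ≤ g' y) (c : ∀ a b, R a b → R (f a) (g b))
    (c' : ∀ a b, R a b → R (f' a) (g' b)) (x y : Y ⊕ Y') :
    am R (Sum.map f' g' x) y ↔ am R x (Sum.map f g y) := by
  rcases x with a | a <;> rcases y with b | b <;> simp only [am, Sum.map_inl, Sum.map_inr]
  · exact h _ _
  · rw [(exG h k c c' a b).2, (exG h' k' c' c a b).1]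
  · exact (exG h k c c' b a).1
  · exact k _ _

end

abbrev MM (α : ℝ) : K α → Type := fun k => E (V k.Y)

theorem amal (α : ℝ) : Amal (MM α) := by
  intro i j v v' W H
  obtain ⟨S, hS, hr⟩ := exists_piso v v' W H
  have C := hS.cl
  generalize hR : (fun x y => S (P x) (P y)) = R at C
  obtain ⟨k, f, hf⟩ := quo α (am R) (am_tr C.le) (am_tot R) (Sum.map s s) (Sum.map s' s')
    (Sum.map t t) (Sum.map t' t')
    ⟨am_adj ok.a1 ok.a1 ok.a2 ok.a2 C.s C.s', am_adj ok.a2 ok.a2 ok.a1 ok.a1 C.s' C.s,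
      am_adj ok.a3 ok.a3 ok.a4 ok.a4 C.t C.t', am_adj ok.a4 ok.a4 ok.a3 ok.a3 C.t' C.t,
      by rintro (y | y) <;> exact ok.h1 y, by rintro (y | y) <;> exact ok.h2 y⟩ (by
      intro p q h y
      have l : ∀ (a : i.Y → i.Y) (b : j.Y → j.Y), Function.Semiconj Sum.inl a (Sum.map a b) :=
        fun _ _ _ => rfl
      have r : ∀ (a : i.Y → i.Y) (b : j.Y → j.Y), Function.Semiconj Sum.inr b (Sum.map a b) :=
        fun _ _ _ => rfl
      rcases y with y | y
      · rw [← (l _ _).iterate_right, ← (l _ _).iterate_right]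
        exact i.cond p q h y
      · rw [← (r _ _).iterate_right, ← (r _ _).iterate_right]
        exact j.cond p q h y)
  have e1 : Emb (· ≤ ·) s s' t t' (fun x => f (.inl x)) :=
    ⟨fun _ _ => hf.le _ _, fun a => hf.s (.inl a), fun a => hf.s' (.inl a), fun a => hf.t (.inl a),
      fun a => hf.t' (.inl a)⟩
  have e2 : Emb (· ≤ ·) s s' t t' (fun x => f (.inr x)) :=
    ⟨fun _ _ => hf.le _ _, fun a => hf.s (.inr a), fun a => hf.s' (.inr a), fun a => hf.t (.inr a),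
      fun a => hf.t' (.inr a)⟩
  have e3 : ∀ x y, S (P x) (P y) → f (.inl x) = f (.inr y) := fun x y r =>
    have r : R x y := hR ▸ r
    le_antisymm ((hf.le _ _).2 (.inl ⟨x, y, r, le_rfl, le_rfl⟩))
      ((hf.le _ _).2 ⟨x, y, r, le_rfl, le_rfl⟩)
  have e4 : ∀ a b, S a b → V.map (fun x => f (.inl x)) a = V.map (fun x => f (.inr x)) b := by
    intro a b r
    rcases hS.shape r with ⟨i, rfl, rfl⟩ | ⟨x, y, rfl, rfl, r2⟩ | ⟨x, y, rfl, rfl, r2⟩
    · rfl
    · exact congrArg P (e3 x y r2)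
    · exact congrArg Q (e3 x y r2)
  refine ⟨k, _, _, fun w hw => ?_, map_same _ e1.piso v, map_same _ e2.piso v'⟩
  have := hr w hw
  generalize v w = x, v' w = y at this
  rcases this with _ | _ | ⟨u, u', r⟩ | ⟨u, u', r⟩
  · rfl
  · rfl
  · exact congrArg E.lo (e4 _ _ r)
  · exact congrArg E.hi (e4 _ _ r)

theorem ev_of {I : Type} {𝒰 : Ultrafilter I} {p : I → Prop} {q : Prop}
    (h : q ↔ ∀ᶠ i in 𝒰, p i) : ∀ᶠ i in 𝒰, p i ↔ q := by
  by_cases c : q
  · filter_upwards [h.1 c] with i x using iff_of_true x c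
  · have := c
    rw [h, ← Ultrafilter.eventually_not] at this
    filter_upwards [this] with i x using iff_of_false x c

theorem ultK (α : ℝ) : Ult (MM α) := by
  intro I 𝒰 k v
  obtain ⟨z, f, hf⟩ := quo α (X := ∀ i, (k i).Y) (fun x y => ∀ᶠ i in 𝒰, x i ≤ y i)
    (fun a b c x y => by filter_upwards [x, y] with i using le_trans)
    (fun a b => Ultrafilter.eventually_or.1 (Eventually.of_forall fun i => le_total _ _))
    (fun x i => s (x i)) (fun x i => s' (x i)) (fun x i => t (x i)) (fun x i => t' (x i))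
    ⟨fun x y => ev_iff (Eventually.of_forall fun i => ok.a1 _ _),
      fun x y => ev_iff (Eventually.of_forall fun i => ok.a2 _ _),
      fun x y => ev_iff (Eventually.of_forall fun i => ok.a3 _ _),
      fun x y => ev_iff (Eventually.of_forall fun i => ok.a4 _ _),
      fun x => Eventually.of_forall fun i => ok.h1 _, fun x => Eventually.of_forall fun i => ok.h2 _⟩
    (fun p q h y => Eventually.of_forall fun i => by
      have l : ∀ (a : ∀ i, (k i).Y → (k i).Y),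
          Function.Semiconj (fun x : ∀ i, (k i).Y => x i) (fun x i => a i (x i)) (a i) :=
        fun _ _ => rfl
      have l1 := (l (fun i => s)).iterate_right p y
      have l2 := (l (fun i => t)).iterate_right q y
      rw [l1, l2]
      exact (k i).cond p q h (y i))
  refine ⟨z, ult (U := fun i => V (k i).Y) (R := fun a b => ∃ τ : V (∀ i, (k i).Y),
    (∀ᶠ i in 𝒰, a i = V.map (fun x => x i) τ) ∧ b = V.map f τ) ⟨?_, ?_, ?_⟩ ?_ v⟩
  · rintro a _ a' _ ⟨τ, r, rfl⟩ ⟨τ', r', rfl⟩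
    rw [ev_iff (by filter_upwards [r, r'] with i x y; rw [x, y])]
    cases τ <;> cases τ' <;> simp only [V.le_iff, V.map, V.le, hf.le, eventually_const]
  · have hP : ∀ (x : ∀ i, (k i).Y) j, ∃ τ : V (∀ i, (k i).Y),
        (∀ i, gP (x i) j = V.map (fun x => x i) τ) ∧ gP (f x) j = V.map f τ := by
      intro x j
      unfold gP
      split_ifs
      · exact ⟨Q (fun i => t' (x i)), fun _ => rfl, congrArg Q (hf.t' x).symm⟩
      · exact ⟨Q (fun i => s' (x i)), fun _ => rfl, congrArg Q (hf.s' x).symm⟩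
      · exact ⟨Q x, fun _ => rfl, rfl⟩
      · exact ⟨c _, fun _ => rfl, rfl⟩
    have hQ : ∀ (x : ∀ i, (k i).Y) j, ∃ τ : V (∀ i, (k i).Y),
        (∀ i, gQ (x i) j = V.map (fun x => x i) τ) ∧ gQ (f x) j = V.map f τ := by
      intro x j
      unfold gQ
      split_ifs
      · exact ⟨P (fun i => t (x i)), fun _ => rfl, congrArg P (hf.t x).symm⟩
      · exact ⟨P (fun i => s (x i)), fun _ => rfl, congrArg P (hf.s x).symm⟩
      · exact ⟨P x, fun _ => rfl, rfl⟩
      · exact ⟨c _, fun _ => rfl, rfl⟩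
    have hL : ∀ x y : ∀ i, (k i).Y, ∀ᶠ i in 𝒰, lev (x i ≤ y i) (x i ≤ s (y i)) (x i ≤ t (y i)) =
        lev (f x ≤ f y) (f x ≤ s (f y)) (f x ≤ t (f y)) := by
      intro x y
      rw [← hf.s, ← hf.t]
      filter_upwards [ev_of (hf.le x y), ev_of (hf.le x (fun i => s (y i))),
        ev_of (hf.le x (fun i => t (y i)))] with i a b d
      simp only [a, b, d]
    rintro a _ a' _ ⟨τ, r, rfl⟩ ⟨τ', r', rfl⟩
    suffices ∃ τ'' : V (∀ i, (k i).Y), (∀ᶠ i in 𝒰, TU.g (V.map (fun x => x i) τ)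
        (V.map (fun x => x i) τ') = V.map (fun x => x i) τ'') ∧
        TU.g (V.map f τ) (V.map f τ') = V.map f τ'' by
      obtain ⟨τ'', x, y⟩ := this
      exact ⟨τ'', by filter_upwards [r, r', x] with i a b d; rw [a, b, d], y⟩
    rcases τ with i | x | x <;> rcases τ' with j | y | y
    · exact ⟨c _, Eventually.of_forall fun _ => rfl, rfl⟩
    · exact (hP y i).imp fun _ h => ⟨Eventually.of_forall h.1, h.2⟩
    · exact (hQ y i).imp fun _ h => ⟨Eventually.of_forall h.1, h.2⟩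
    · exact (hP x j).imp fun _ h => ⟨Eventually.of_forall h.1, h.2⟩
    · exact ⟨c _, Eventually.of_forall fun _ => rfl, rfl⟩
    · exact ⟨c _, by filter_upwards [hL x y] with i h using congrArg c h, rfl⟩
    · exact (hQ x j).imp fun _ h => ⟨Eventually.of_forall h.1, h.2⟩
    · exact ⟨c _, by filter_upwards [hL y x] with i h using congrArg c h, rfl⟩
    · exact ⟨c _, Eventually.of_forall fun _ => rfl, rfl⟩
  · intro _ _ _ _ _ _ _
    exact ⟨c 7, Eventually.of_forall fun _ => rfl, rfl⟩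
  · intro a
    let x : ∀ i, (k i).Y := fun i => match a i with
      | .P x => x
      | .Q x => x
      | _ => Classical.arbitrary _
    have : ∀ᶠ i in 𝒰, (∃ j, a i = c j) ∨ a i = P (x i) ∨ a i = Q (x i) :=
      Eventually.of_forall fun i => by simp only [x]; cases a i <;> simp
    simp only [Ultrafilter.eventually_or, Ultrafilter.eventually_exists_iff] at this
    rcases this with ⟨j, h⟩ | h | h
    · exact ⟨_, c j, h, rfl⟩
    · exact ⟨_, P x, h, rfl⟩
    · exact ⟨_, Q x, h, rfl⟩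

theorem dipK (α : ℝ) : DIP (Mod (MM α)) := dip (ultK α) (fun _ => E.disc) (amal α)

theorem lkF (α : ℝ) : ConsF (Lg (MM α)) = Mod (MM α) := linkF (ultK α) (fun _ => E.disc)

theorem lkM (α : ℝ) : ConsM (Lg (MM α)) = Mod (MM α) :=
  linkM (ultK α) (fun _ => E.disc) (fun _ => E.prelin)

@[reducible] noncomputable def chR {β : ℝ} (h : 1 ≤ β) : Ch ℝ where
  s x := x + 1
  s' x := x - 1
  t x := x + β
  t' x := x - β
  ok := ⟨fun _ _ => sub_le_iff_le_add, fun _ _ => le_sub_iff_add_le.symm,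
    fun _ _ => sub_le_iff_le_add, fun _ _ => le_sub_iff_add_le.symm,
    fun y => by linarith, fun y => by linarith⟩

theorem it_add (b : ℝ) (n : ℕ) (y : ℝ) : (fun x => x + b)^[n] y = y + b * n := by
  simp [mul_comm]

noncomputable def KR {β : ℝ} (h : 1 ≤ β) : K β := @K.mk β ℝ (chR h) ⟨0⟩ (by
  intro p q a y
  show (fun x => x + β)^[q] y ≤ (fun x => x + 1)^[p] y
  rw [it_add, it_add]
  linarith)

theorem Cl.it {Y Y' : Type} {R : Y → Y' → Prop} {f : Y → Y} {g : Y' → Y'}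
    (h : ∀ a b, R a b → R (f a) (g b)) (n : ℕ) (a : Y) (b : Y') (r : R a b) :
    R (f^[n] a) (g^[n] b) := by
  induction n generalizing a b with
  | zero => exact r
  | succ n i => exact i _ _ (h _ _ r)

theorem distinct {α β : ℝ} (h : 1 ≤ α) (hl : α < β) : Mod (MM α) ≠ Mod (MM β) := by
  intro e
  let k0 := KR (h.trans hl.le)
  let v0 : ℕ → MM β k0 := fun _ => .hi (P (0 : ℝ))
  have : ¬ Mod (MM β) {θ | ev v0 θ = 1} .f := fun c => E.disc.1 (c k0 v0 fun _ a => a)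
  rw [← e] at this
  simp only [Mod, not_forall] at this
  obtain ⟨k, v, hv, -⟩ := this
  obtain ⟨S, hS, hr⟩ := exists_piso v v0 Set.univ
    (same E.disc E.disc v v0 Set.univ (fun θ _ a => hv θ a))
  have r := hr 0 trivial
  generalize v 0 = x at r
  obtain ⟨y, r⟩ : ∃ y, S (P y) (P (0 : ℝ)) := by
    cases r with
    | hi u _ r =>
      rcases hS.shape r with ⟨i, -, a⟩ | ⟨x, y, rfl, -, -⟩ | ⟨x, y, -, a, -⟩
      · cases a
      · exact ⟨x, r⟩
      · cases a
  obtain ⟨q, hq⟩ := exists_nat_gt (1 / (β - α))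
  rw [div_lt_iff₀ (by linarith)] at hq
  have h1 := Nat.lt_floor_add_one (α * q)
  have h2 := Nat.floor_le (show 0 ≤ α * q by positivity)
  have C := hS.cl
  have := (C.le _ _ _ _ (Cl.it C.t q _ _ r) (Cl.it C.s (⌊α * q⌋₊ + 1) _ _ r)).1
    (k.cond _ _ (by push_cast; exact h1) y)
  change (fun x => x + β)^[q] (0 : ℝ) ≤ (fun x => x + 1)^[_] (0 : ℝ) at this
  rw [it_add, it_add] at this
  push_cast at this
  nlinarith

theorem inj : Function.Injective (fun x : ℝ => Mod (MM (1 + Real.exp x))) := by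
  intro x y h
  have p : ∀ x, 1 ≤ 1 + Real.exp x := fun x => by linarith [Real.exp_pos x]
  rcases lt_trichotomy x y with a | a | a
  · exact absurd h (distinct (p x) (by linarith [Real.exp_lt_exp.2 a]))
  · exact a
  · exact absurd h.symm (distinct (p y) (by linarith [Real.exp_lt_exp.2 a]))

theorem fin (S : Set (Set Fm → Fm → Prop)) (h : ∀ α, Mod (MM α) ∈ S) :
    ¬ S.Countable ∧ Cardinal.continuum ≤ Cardinal.mk S := by
  have : Cardinal.continuum ≤ Cardinal.mk S := by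
    rw [← Cardinal.mk_real]
    exact Cardinal.mk_le_of_injective (f := fun x => (⟨_, h (1 + Real.exp x)⟩ : S))
      fun x y e => inj (congrArg Subtype.val e)
  refine ⟨fun c => ?_, this⟩
  exact absurd (this.trans (Cardinal.le_aleph0_iff_set_countable.2 c))
    (not_le.2 Cardinal.aleph0_lt_continuum)

end Pool.Agent.H.MP_db33a0_lc
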